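import Pool.Agent.Lib.MP_630a53_an.Spectral

open Pool.Agent.Lib.MP_630a53_an

namespace Pool.Agent.Results.MP_630a53_an.CompleteBipartite

/-- For `m, n ≥ 3` the equilateral complete bipartite graph `K_{m,n}` is a connected compact
graph on which every point is a hot spot, and it is isometric to no equilateral pumpkin and to
no equilateral complete graph. -/
theorem result (m n : ℕ) (hm : 3 ≤ m) (hn : 3 ≤ n) (l : ℝ) (hl : 0 < l) :
    (completeBipartite m n l hl).Connected ∧
    (completeBipartite m n l hl).hotSpots = Set.univ ∧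
    (∀ (k : ℕ) (l' : ℝ) (hl' : 0 < l'), 2 ≤ k →
      ¬ (completeBipartite m n l hl).Isometric (pumpkin k l' hl')) ∧
    (∀ (N : ℕ) (l' : ℝ) (hl' : 0 < l'),
      ¬ (completeBipartite m n l hl).Isometric (complete N l' hl')) :=
  ⟨cb_connected hl (by omega) (by omega), cb_hotSpots hl (by omega) (by omega),
    fun k l' hl' _ => cb_not_pumpkin hl hm hn k l' hl',
    fun N l' hl' => cb_not_complete hl hm hn N l' hl'⟩

end Pool.Agent.Results.MP_630a53_an.CompleteBipartite
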